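import Pool.Agent.H.MP_dd87f4_mp.Final

/-!
# Additivity of the minimum output entropy, one qubit channel and one channel with qubit output

For every channel `L₁ : M_m(ℂ) → M_2(ℂ)` (any `m ≥ 1`) and every qubit channel
`L₂ : M_2(ℂ) → M_2(ℂ)` the minimum output entropy of `L₁ ⊗ L₂` is the sum of the two minimum output
entropies. Channels are completely positive trace preserving linear maps and the von Neumann
entropy is `- tr (X log X)`. This file restates, in the language of the problem, and extends in the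
input dimension of `L₁`, the inequality behind the proof of the frozen statement `S15807`
(`Pool/Agent/H/MP_dd87f4_mp`).
-/

set_option autoImplicit false

open Matrix
open scoped ComplexOrder Kronecker

namespace Pool.Agent.Results.MP_dd87f4_mp.QubitAdditivity

/-- Density matrices: positive semidefinite of trace one. -/
def IsState {α : Type} [Fintype α] (X : Matrix α α ℂ) : Prop :=
  X.PosSemidef ∧ X.trace = 1

/-- The von Neumann entropy `S(X) = - tr (X log X)`; the logarithm is the continuous functional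
calculus of the Hermitian matrix `X` (with `0 log 0 = 0`). -/
noncomputable def entropy {α : Type} [Fintype α] [DecidableEq α] (X : Matrix α α ℂ) : ℝ :=
  -(X * cfc Real.log X).trace.re

/-- The map `id ⊗ L` applied to a `k × k` block matrix: `L` acts on every block. -/
def ampliation {α β : Type} (k : ℕ) (L : Matrix α α ℂ →ₗ[ℂ] Matrix β β ℂ)
    (X : Matrix (Fin k × α) (Fin k × α) ℂ) : Matrix (Fin k × β) (Fin k × β) ℂ :=
  Matrix.of fun p q => L (Matrix.of fun a b => X (p.1, a) (q.1, b)) p.2 q.2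

/-- Complete positivity: for every `k` the map `id_k ⊗ L` preserves positive semidefiniteness. -/
def IsCompletelyPositive {α β : Type} [Fintype α] [Fintype β]
    (L : Matrix α α ℂ →ₗ[ℂ] Matrix β β ℂ) : Prop :=
  ∀ (k : ℕ) (X : Matrix (Fin k × α) (Fin k × α) ℂ), X.PosSemidef → (ampliation k L X).PosSemidef

/-- A quantum channel: a completely positive, trace preserving linear map. -/
def IsChannel {α β : Type} [Fintype α] [Fintype β]
    (L : Matrix α α ℂ →ₗ[ℂ] Matrix β β ℂ) : Prop :=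
  IsCompletelyPositive L ∧ ∀ X, (L X).trace = X.trace

/-- The output entropies of `L`, over all input states. -/
def outputEntropies {α β : Type} [Fintype α] [Fintype β] [DecidableEq β]
    (L : Matrix α α ℂ →ₗ[ℂ] Matrix β β ℂ) : Set ℝ :=
  {s | ∃ X : Matrix α α ℂ, IsState X ∧ entropy (L X) = s}

/-- The minimum output entropy of `L`. -/
noncomputable def minOutputEntropy {α β : Type} [Fintype α] [Fintype β] [DecidableEq β]
    (L : Matrix α α ℂ →ₗ[ℂ] Matrix β β ℂ) : ℝ :=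
  sInf (outputEntropies L)

section entropy

variable {α β : Type} [Fintype α] [DecidableEq α] [Fintype β] [DecidableEq β]

theorem entropy_eq_sum {X : Matrix α α ℂ} (hX : X.IsHermitian) :
    entropy X = ∑ i, Real.negMulLog (hX.eigenvalues i) := by
  have h1 : X * cfc Real.log X = Unitary.conjStarAlgAut ℂ _ hX.eigenvectorUnitary
      (diagonal (fun i => ((hX.eigenvalues i * Real.log (hX.eigenvalues i) : ℝ) : ℂ))) := by
    rw [hX.cfc_eq, Matrix.IsHermitian.cfc]
    refine (congrArg (fun Z : Matrix α α ℂ => Z * Unitary.conjStarAlgAut ℂ _ hX.eigenvectorUnitary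
      (diagonal (RCLike.ofReal ∘ Real.log ∘ hX.eigenvalues))) hX.spectral_theorem).trans ?_
    rw [← map_mul, diagonal_mul_diagonal]
    congr 1
    congr 1
    funext i
    simp
  unfold entropy
  rw [h1, Unitary.conjStarAlgAut_apply, Matrix.trace_mul_cycle]
  simp only [Unitary.star_mul_self_of_mem, SetLike.coe_mem, one_mul, trace_diagonal]
  rw [Complex.re_sum, ← Finset.sum_neg_distrib]
  refine Finset.sum_congr rfl fun i _ => ?_
  rw [Complex.ofReal_re, Real.negMulLog, neg_mul]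

theorem entropy_eq_ent {X : Matrix α α ℂ} (hX : X.IsHermitian) : entropy X = QA.ent X := by
  rw [entropy_eq_sum hX, QA.ent_eq hX]

theorem ent_diagonal (v : α → ℝ) :
    QA.ent (diagonal (fun i => (v i : ℂ))) = ∑ i, Real.negMulLog (v i) := by
  unfold QA.ent
  rw [charpoly_diagonal, Polynomial.roots_prod _ _ (Finset.prod_ne_zero_iff.2
    fun i _ => Polynomial.X_sub_C_ne_zero _)]
  simp [Polynomial.roots_X_sub_C]

omit [DecidableEq α] [DecidableEq β] in
theorem negMulLog_prod_sum (v : α → ℝ) (w : β → ℝ) (hv : ∑ i, v i = 1) (hw : ∑ i, w i = 1) :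
    ∑ p : α × β, Real.negMulLog (v p.1 * w p.2) =
      ∑ i, Real.negMulLog (v i) + ∑ j, Real.negMulLog (w j) := by
  simp only [Real.negMulLog_mul, Fintype.sum_prod_type, Finset.sum_add_distrib]
  congr 1
  · refine Finset.sum_congr rfl fun i _ => ?_
    rw [← Finset.sum_mul, hw, one_mul]
  · rw [Finset.sum_comm]
    refine Finset.sum_congr rfl fun j _ => ?_
    rw [← Finset.sum_mul, hv, one_mul]

theorem eig_sum {X : Matrix α α ℂ} (hX : IsState X) : ∑ i, hX.1.1.eigenvalues i = 1 := by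
  rw [QA.sum_eig, QA.rtr, hX.2, Complex.one_re]

/-- Entropy is additive on product states. -/
theorem entropy_kronecker {X : Matrix α α ℂ} {Y : Matrix β β ℂ} (hX : IsState X)
    (hY : IsState Y) : entropy (X ⊗ₖ Y) = entropy X + entropy Y := by
  have hXY : (X ⊗ₖ Y).PosSemidef := hX.1.kronecker hY.1
  rw [entropy_eq_ent hXY.1, entropy_eq_sum hX.1.1, entropy_eq_sum hY.1.1]
  set U : Matrix α α ℂ := (hX.1.1.eigenvectorUnitary : Matrix α α ℂ) with hU
  set V : Matrix β β ℂ := (hY.1.1.eigenvectorUnitary : Matrix β β ℂ) with hV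
  have eX : X = U * diagonal (fun i => (hX.1.1.eigenvalues i : ℂ)) * Uᴴ := by
    have h := hX.1.1.spectral_theorem
    rw [Unitary.conjStarAlgAut_apply] at h
    exact h
  have eY : Y = V * diagonal (fun i => (hY.1.1.eigenvalues i : ℂ)) * Vᴴ := by
    have h := hY.1.1.spectral_theorem
    rw [Unitary.conjStarAlgAut_apply] at h
    exact h
  have hUU : Uᴴ * U = 1 := by
    rw [hU, ← star_eq_conjTranspose]
    exact Unitary.coe_star_mul_self _
  have hVV : Vᴴ * V = 1 := by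
    rw [hV, ← star_eq_conjTranspose]
    exact Unitary.coe_star_mul_self _
  have e : X ⊗ₖ Y = (U ⊗ₖ V) * diagonal (fun p : α × β =>
      ((hX.1.1.eigenvalues p.1 * hY.1.1.eigenvalues p.2 : ℝ) : ℂ)) * (U ⊗ₖ V)ᴴ := by
    conv_lhs => rw [eX, eY]
    rw [mul_kronecker_mul, mul_kronecker_mul, diagonal_kronecker_diagonal,
      ← conjTranspose_kronecker]
    congr 3
    funext p
    push_cast
    rfl
  have hUV : (U ⊗ₖ V)ᴴ * (U ⊗ₖ V) = 1 := by
    rw [conjTranspose_kronecker, ← mul_kronecker_mul, hUU, hVV, one_kronecker_one]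
  rw [e, QA.ent_unitary _ _ hUV, ent_diagonal]
  exact negMulLog_prod_sum _ _ (eig_sum hX) (eig_sum hY)

end entropy

section amp

variable {α β κ : Type}

/-- blockwise application over an arbitrary index type -/
def amp (L : Matrix α α ℂ →ₗ[ℂ] Matrix β β ℂ) (X : Matrix (κ × α) (κ × α) ℂ) :
    Matrix (κ × β) (κ × β) ℂ :=
  Matrix.of fun p q => L (Matrix.of fun a b => X (p.1, a) (q.1, b)) p.2 q.2

theorem amp_psd [Fintype α] [Fintype β] [Fintype κ] {L : Matrix α α ℂ →ₗ[ℂ] Matrix β β ℂ}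
    (hL : IsCompletelyPositive L) {X : Matrix (κ × α) (κ × α) ℂ} (hX : X.PosSemidef) :
    (amp L X).PosSemidef := by
  classical
  have e := Fintype.equivFin κ
  have h1 : (X.submatrix (fun p : Fin (Fintype.card κ) × α => (e.symm p.1, p.2))
      (fun p : Fin (Fintype.card κ) × α => (e.symm p.1, p.2))).PosSemidef := hX.submatrix _
  have h2 := (hL _ _ h1).submatrix (fun p : κ × β => (e p.1, p.2))
  have h3 : (ampliation (Fintype.card κ) L
      (X.submatrix (fun p : Fin (Fintype.card κ) × α => (e.symm p.1, p.2))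
        (fun p : Fin (Fintype.card κ) × α => (e.symm p.1, p.2)))).submatrix
          (fun p : κ × β => (e p.1, p.2)) (fun p : κ × β => (e p.1, p.2)) = amp L X := by
    ext p q
    simp [ampliation, amp]
  rwa [h3] at h2

end amp

section left

variable {α β γ : Type}

/-- `L ⊗ id` -/
def mapLeft (L : Matrix α α ℂ →ₗ[ℂ] Matrix β β ℂ) :
    Matrix (α × γ) (α × γ) ℂ →ₗ[ℂ] Matrix (β × γ) (β × γ) ℂ where
  toFun X := Matrix.of fun p q => L (Matrix.of fun a b => X (a, p.2) (b, q.2)) p.1 q.1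
  map_add' X Y := by
    ext p q
    have h : (Matrix.of fun a b => (X + Y) (a, p.2) (b, q.2)) =
      (Matrix.of fun a b => X (a, p.2) (b, q.2)) + Matrix.of fun a b => Y (a, p.2) (b, q.2) := rfl
    simp only [Matrix.of_apply, Matrix.add_apply]
    rw [← Matrix.add_apply, ← map_add]
    rfl
  map_smul' c X := by
    ext p q
    simp only [Matrix.of_apply, Matrix.smul_apply, RingHom.id_apply]
    rw [← Matrix.smul_apply, ← map_smul]
    rfl

/-- `id ⊗ L` -/
def mapRight (L : Matrix α α ℂ →ₗ[ℂ] Matrix β β ℂ) :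
    Matrix (γ × α) (γ × α) ℂ →ₗ[ℂ] Matrix (γ × β) (γ × β) ℂ where
  toFun X := amp L X
  map_add' X Y := by
    ext p q
    simp only [amp, Matrix.of_apply, Matrix.add_apply]
    rw [← Matrix.add_apply, ← map_add]
    rfl
  map_smul' c X := by
    ext p q
    simp only [amp, Matrix.of_apply, Matrix.smul_apply, RingHom.id_apply]
    rw [← Matrix.smul_apply, ← map_smul]
    rfl

theorem mapLeft_apply (L : Matrix α α ℂ →ₗ[ℂ] Matrix β β ℂ) (X : Matrix (α × γ) (α × γ) ℂ)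
    (p q : β × γ) :
    mapLeft L X p q = L (Matrix.of fun a b => X (a, p.2) (b, q.2)) p.1 q.1 := rfl

theorem mapRight_apply (L : Matrix α α ℂ →ₗ[ℂ] Matrix β β ℂ) (X : Matrix (γ × α) (γ × α) ℂ)
    (p q : γ × β) :
    mapRight L X p q = L (Matrix.of fun a b => X (p.1, a) (q.1, b)) p.2 q.2 := rfl

theorem mapLeft_kronecker (L : Matrix α α ℂ →ₗ[ℂ] Matrix β β ℂ) (A : Matrix α α ℂ)
    (B : Matrix γ γ ℂ) : mapLeft L (A ⊗ₖ B) = L A ⊗ₖ B := by
  ext p q
  rw [mapLeft_apply]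
  have h : (Matrix.of fun a b => (A ⊗ₖ B) (a, p.2) (b, q.2)) = B p.2 q.2 • A := by
    ext a b
    simp [mul_comm]
  rw [h, map_smul]
  simp [mul_comm]

theorem mapRight_kronecker (L : Matrix α α ℂ →ₗ[ℂ] Matrix β β ℂ) (A : Matrix γ γ ℂ)
    (B : Matrix α α ℂ) : mapRight L (A ⊗ₖ B) = A ⊗ₖ L B := by
  ext p q
  rw [mapRight_apply]
  have h : (Matrix.of fun a b => (A ⊗ₖ B) (p.1, a) (q.1, b)) = A p.1 q.1 • B := by
    ext a b
    simp
  rw [h, map_smul]
  simp

variable [Fintype α] [Fintype β] [Fintype γ]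

theorem mapLeft_psd {L : Matrix α α ℂ →ₗ[ℂ] Matrix β β ℂ} (hL : IsCompletelyPositive L)
    {X : Matrix (α × γ) (α × γ) ℂ} (hX : X.PosSemidef) : (mapLeft L X).PosSemidef := by
  have h := (amp_psd hL (hX.submatrix (Prod.swap : γ × α → α × γ))).submatrix
    (Prod.swap : β × γ → γ × β)
  exact h

theorem mapLeft_cp {L : Matrix α α ℂ →ₗ[ℂ] Matrix β β ℂ} (hL : IsCompletelyPositive L) :
    IsCompletelyPositive (mapLeft (γ := γ) L) := by
  intro k X hX
  have h1 := hX.submatrix (fun p : (Fin k × γ) × α => (p.1.1, (p.2, p.1.2)))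
  have h2 := (amp_psd hL h1).submatrix (fun p : Fin k × (β × γ) => ((p.1, p.2.2), p.2.1))
  exact h2

theorem mapRight_cp {L : Matrix α α ℂ →ₗ[ℂ] Matrix β β ℂ} (hL : IsCompletelyPositive L) :
    IsCompletelyPositive (mapRight (γ := γ) L) := by
  intro k X hX
  have h1 := hX.submatrix (fun p : (Fin k × γ) × α => (p.1.1, (p.1.2, p.2)))
  have h2 := (amp_psd hL h1).submatrix (fun p : Fin k × (γ × β) => ((p.1, p.2.1), p.2.2))
  exact h2

theorem mapLeft_trace {L : Matrix α α ℂ →ₗ[ℂ] Matrix β β ℂ} (hL : ∀ X, (L X).trace = X.trace)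
    (X : Matrix (α × γ) (α × γ) ℂ) : (mapLeft L X).trace = X.trace := by
  simp only [Matrix.trace, Matrix.diag_apply, mapLeft_apply, Fintype.sum_prod_type_right]
  refine Finset.sum_congr rfl fun c _ => ?_
  exact hL (Matrix.of fun a b => X (a, c) (b, c))

theorem mapRight_trace {L : Matrix α α ℂ →ₗ[ℂ] Matrix β β ℂ} (hL : ∀ X, (L X).trace = X.trace)
    (X : Matrix (γ × α) (γ × α) ℂ) : (mapRight L X).trace = X.trace := by
  simp only [Matrix.trace, Matrix.diag_apply, mapRight_apply, Fintype.sum_prod_type]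
  refine Finset.sum_congr rfl fun c _ => ?_
  exact hL (Matrix.of fun a b => X (c, a) (c, b))

end left

section comp

variable {α β γ δ : Type}

theorem comp_cp [Fintype α] [Fintype β] [Fintype γ] {L : Matrix α α ℂ →ₗ[ℂ] Matrix β β ℂ}
    {L' : Matrix β β ℂ →ₗ[ℂ] Matrix γ γ ℂ} (h : IsCompletelyPositive L)
    (h' : IsCompletelyPositive L') : IsCompletelyPositive (L' ∘ₗ L) := by
  intro k X hX
  exact h' k _ (h k X hX)

/-- `L₁ ⊗ L₂` -/
def tens (L₁ : Matrix α α ℂ →ₗ[ℂ] Matrix β β ℂ) (L₂ : Matrix γ γ ℂ →ₗ[ℂ] Matrix δ δ ℂ) :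
    Matrix (α × γ) (α × γ) ℂ →ₗ[ℂ] Matrix (β × δ) (β × δ) ℂ :=
  (mapRight L₂) ∘ₗ (mapLeft L₁)

theorem tens_kronecker (L₁ : Matrix α α ℂ →ₗ[ℂ] Matrix β β ℂ)
    (L₂ : Matrix γ γ ℂ →ₗ[ℂ] Matrix δ δ ℂ) (A : Matrix α α ℂ) (B : Matrix γ γ ℂ) :
    tens L₁ L₂ (A ⊗ₖ B) = L₁ A ⊗ₖ L₂ B := by
  unfold tens
  rw [LinearMap.comp_apply, mapLeft_kronecker, mapRight_kronecker]

theorem tens_channel [Fintype α] [Fintype β] [Fintype γ] [Fintype δ]
    {L₁ : Matrix α α ℂ →ₗ[ℂ] Matrix β β ℂ} {L₂ : Matrix γ γ ℂ →ₗ[ℂ] Matrix δ δ ℂ}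
    (h₁ : IsChannel L₁) (h₂ : IsChannel L₂) : IsChannel (tens L₁ L₂) := by
  refine ⟨comp_cp (mapLeft_cp h₁.1) (mapRight_cp h₂.1), fun X => ?_⟩
  unfold tens
  rw [LinearMap.comp_apply, mapRight_trace h₂.2, mapLeft_trace h₁.2]

theorem tens_unique [Fintype α] [Fintype γ]
    {T T' : Matrix (α × γ) (α × γ) ℂ →ₗ[ℂ] Matrix (β × δ) (β × δ) ℂ}
    (h : ∀ (A : Matrix α α ℂ) (B : Matrix γ γ ℂ), T (A ⊗ₖ B) = T' (A ⊗ₖ B)) : T = T' := by
  classical
  apply LinearMap.ext
  intro X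
  rw [matrix_eq_sum_single X]
  simp only [map_sum]
  refine Finset.sum_congr rfl fun p _ => Finset.sum_congr rfl fun q _ => ?_
  have e : Matrix.single p q (X p q) =
      (Matrix.single p.1 q.1 (X p q)) ⊗ₖ (Matrix.single p.2 q.2 (1 : ℂ)) := by
    rw [single_kronecker_single, mul_one]
  rw [e]
  exact h _ _

end comp

section kraus

section

open scoped MatrixOrder Norms.L2Operator

theorem psd_factor {α : Type} [Fintype α] [DecidableEq α] {X : Matrix α α ℂ}
    (h : X.PosSemidef) : ∃ B : Matrix α α ℂ, X = Bᴴ * B := by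
  obtain ⟨B, hB⟩ := CStarAlgebra.nonneg_iff_eq_star_mul_self.mp h.nonneg
  exact ⟨B, hB⟩

end

/-- Choi: a completely positive map has Kraus operators. -/
theorem exists_kraus {L : Matrix (Fin 2) (Fin 2) ℂ →ₗ[ℂ] Matrix (Fin 2) (Fin 2) ℂ}
    (hL : IsCompletelyPositive L) :
    ∃ (n : ℕ) (M : Fin n → Matrix (Fin 2) (Fin 2) ℂ), ∀ X, L X = QA.out M X := by
  classical
  set v : Fin 2 × Fin 2 → ℂ := fun p => if p.1 = p.2 then 1 else 0 with hv
  have h1 : (vecMulVec v (star v)).PosSemidef := posSemidef_vecMulVec_self_star v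
  obtain ⟨B, hB⟩ := psd_factor (hL 2 _ h1)
  have e := Fintype.equivFin (Fin 2 × Fin 2)
  have key : ∀ i j a b : Fin 2, L (Matrix.single i j 1) a b =
      ∑ r, star (B r (i, a)) * B r (j, b) := by
    intro i j a b
    have h2 : (ampliation 2 L (vecMulVec v (star v))) (i, a) (j, b) =
        L (Matrix.single i j 1) a b := by
      unfold ampliation
      rw [Matrix.of_apply]
      have h3 : (Matrix.of fun x y => vecMulVec v (star v) (i, x) (j, y)) =
          Matrix.single i j (1 : ℂ) := by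
        ext x y
        simp only [Matrix.of_apply, vecMulVec_apply, hv, Pi.star_apply, Matrix.single_apply]
        by_cases hx : i = x <;> by_cases hy : j = y <;> simp [hx, hy]
      exact congrFun (congrFun (congrArg L h3) a) b
    rw [← h2, hB, Matrix.mul_apply]
    simp [Matrix.conjTranspose_apply]
  refine ⟨Fintype.card (Fin 2 × Fin 2), fun r => Matrix.of fun a i => star (B (e.symm r) (i, a)),
    fun X => ?_⟩
  have hX : L X = ∑ i, ∑ j, X i j • L (Matrix.single i j 1) := by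
    conv_lhs => rw [matrix_eq_sum_single X]
    simp only [map_sum]
    refine Finset.sum_congr rfl fun i _ => Finset.sum_congr rfl fun j _ => ?_
    rw [← map_smul, Matrix.smul_single, smul_eq_mul, mul_one]
  rw [hX]
  ext a b
  unfold QA.out
  simp only [Matrix.sum_apply, Matrix.smul_apply, key, smul_eq_mul]
  rw [← e.sum_comp]
  simp only [Matrix.mul_apply, Matrix.conjTranspose_apply, Matrix.of_apply, star_star,
    Equiv.symm_apply_apply, Finset.mul_sum, Finset.sum_mul]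
  rw [Finset.sum_comm]
  conv_rhs => rw [Finset.sum_comm]
  refine Finset.sum_congr rfl fun j _ => ?_
  rw [Finset.sum_comm]
  refine Finset.sum_congr rfl fun r _ => Finset.sum_congr rfl fun i _ => ?_
  ring

theorem kraus_tp {n : ℕ} {M : Fin n → Matrix (Fin 2) (Fin 2) ℂ}
    (h : ∀ X, (QA.out M X).trace = X.trace) : ∑ j, (M j)ᴴ * M j = 1 := by
  have h1 : ∀ X : Matrix (Fin 2) (Fin 2) ℂ, ((∑ j, (M j)ᴴ * M j) * X).trace = X.trace := by
    intro X
    rw [← h X]
    unfold QA.out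
    rw [Matrix.trace_sum, Finset.sum_mul, Matrix.trace_sum]
    refine Finset.sum_congr rfl fun j _ => ?_
    exact (Matrix.trace_mul_cycle _ _ _).symm
  ext i j
  have h2 := h1 (Matrix.single j i 1)
  rw [Matrix.trace_mul_single] at h2
  rw [Matrix.one_apply]
  by_cases hij : i = j
  · subst hij
    simpa [Matrix.trace_single_eq_same] using h2
  · rw [if_neg hij]
    rw [Matrix.trace_single_eq_of_ne _ _ _ (Ne.symm hij)] at h2
    simpa using h2

end kraus

section minimum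

variable {m : ℕ}

theorem factor_trace (K : Matrix (Fin m) (Fin m) ℂ) :
    (Kᴴ * K).trace = ((∑ i, ∑ j, ‖K i j‖ ^ 2 : ℝ) : ℂ) := by
  simp only [Matrix.trace, Matrix.diag_apply, Matrix.mul_apply, Matrix.conjTranspose_apply]
  have h : ∀ z : ℂ, star z * z = ((‖z‖ ^ 2 : ℝ) : ℂ) := by
    intro z
    rw [Complex.star_def, Complex.conj_mul']
    push_cast
    rfl
  simp only [h]
  rw [Finset.sum_comm]
  push_cast
  rfl

/-- The determinant of the output is minimised at some input state. -/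
theorem exists_min_det (hm : 0 < m) (L : Matrix (Fin m) (Fin m) ℂ →ₗ[ℂ] Matrix (Fin 2) (Fin 2) ℂ) :
    ∃ σ : Matrix (Fin m) (Fin m) ℂ, IsState σ ∧
      ∀ τ : Matrix (Fin m) (Fin m) ℂ, IsState τ → ((L σ).det).re ≤ ((L τ).det).re := by
  set S : Set (Fin m → Fin m → ℂ) := {k | ∑ i, ∑ j, ‖k i j‖ ^ 2 = (1 : ℝ)} with hS
  have hcl : IsClosed S := by
    apply isClosed_eq
    · fun_prop
    · fun_prop
  have hsub : S ⊆ Set.pi Set.univ (fun _ => Set.pi Set.univ (fun _ => Metric.closedBall (0 : ℂ) 1)) := by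
    intro k hk i _ j _
    rw [Metric.mem_closedBall, dist_zero_right]
    have h1 : ‖k i j‖ ^ 2 ≤ ∑ j', ‖k i j'‖ ^ 2 :=
      Finset.single_le_sum (f := fun j' => ‖k i j'‖ ^ 2) (fun _ _ => sq_nonneg _) (Finset.mem_univ j)
    have h2 : ∑ j', ‖k i j'‖ ^ 2 ≤ ∑ i', ∑ j', ‖k i' j'‖ ^ 2 :=
      Finset.single_le_sum (f := fun i' => ∑ j', ‖k i' j'‖ ^ 2)
        (fun _ _ => Finset.sum_nonneg fun _ _ => sq_nonneg _) (Finset.mem_univ i)
    have h3 : ‖k i j‖ ^ 2 ≤ 1 := by
      rw [hS, Set.mem_ofPred_eq] at hk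
      linarith
    nlinarith [norm_nonneg (k i j)]
  have hcomp : IsCompact S := by
    refine IsCompact.of_isClosed_subset ?_ hcl hsub
    exact isCompact_univ_pi fun _ => isCompact_univ_pi fun _ => isCompact_closedBall _ _
  have hne : S.Nonempty := by
    refine ⟨fun i j => if i = ⟨0, hm⟩ ∧ j = ⟨0, hm⟩ then 1 else 0, ?_⟩
    rw [hS, Set.mem_ofPred_eq, Finset.sum_eq_single (⟨0, hm⟩ : Fin m),
      Finset.sum_eq_single (⟨0, hm⟩ : Fin m)]
    · simp
    · intro b _ hb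
      simp [hb]
    · simp
    · intro b _ hb
      simp [hb]
    · simp
  have hLc : Continuous L := L.continuous_of_finiteDimensional
  set f : (Fin m → Fin m → ℂ) → ℝ := fun k =>
    ((L ((Matrix.of k)ᴴ * Matrix.of k)).det).re with hf
  have hcont : Continuous f := by
    rw [hf]
    have h1 : Continuous fun k : Fin m → Fin m → ℂ => (Matrix.of k : Matrix (Fin m) (Fin m) ℂ) :=
      continuous_id
    have h2 : Continuous fun k : Fin m → Fin m → ℂ =>
        ((Matrix.of k : Matrix (Fin m) (Fin m) ℂ)ᴴ * Matrix.of k) :=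
      h1.matrix_conjTranspose.matrix_mul h1
    exact Complex.continuous_re.comp (hLc.comp h2).matrix_det
  obtain ⟨k, hk, hmin⟩ := hcomp.exists_isMinOn hne hcont.continuousOn
  refine ⟨(Matrix.of k)ᴴ * Matrix.of k, ⟨Matrix.posSemidef_conjTranspose_mul_self _, ?_⟩, ?_⟩
  · rw [factor_trace]
    rw [hS, Set.mem_ofPred_eq] at hk
    simp only [Matrix.of_apply]
    rw [hk]
    simp
  · rintro τ ⟨hτ, hτ1⟩
    obtain ⟨K, hK⟩ := psd_factor hτ
    have hKS : (fun i j => K i j) ∈ S := by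
      rw [hS, Set.mem_ofPred_eq]
      rw [hK, factor_trace] at hτ1
      exact_mod_cast hτ1
    have h := hmin hKS
    rw [Set.mem_ofPred_eq] at h
    rw [hK]
    exact h

theorem cp_psd {α β : Type} [Fintype α] [Fintype β] {L : Matrix α α ℂ →ₗ[ℂ] Matrix β β ℂ}
    (hL : IsCompletelyPositive L) {X : Matrix α α ℂ} (hX : X.PosSemidef) : (L X).PosSemidef := by
  have h1 := hX.submatrix (fun p : Fin 1 × α => p.2)
  have h2 := (hL 1 _ h1).submatrix (fun b : β => ((0 : Fin 1), b))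
  exact h2

theorem channel_state {α β : Type} [Fintype α] [Fintype β] {L : Matrix α α ℂ →ₗ[ℂ] Matrix β β ℂ}
    (hL : IsChannel L) {X : Matrix α α ℂ} (hX : IsState X) : IsState (L X) :=
  ⟨cp_psd hL.1 hX.1, (hL.2 X).trans hX.2⟩

/-- entropy of a qubit state -/
theorem entropy_two {X : Matrix (Fin 2) (Fin 2) ℂ} (hX : IsState X) :
    entropy X = QA.hh (X.det).re := by
  rw [entropy_eq_ent hX.1.1, QA.ent_two hX.1, QA.hh, QA.rtr, hX.2, Complex.one_re]

/-- a lower bound for the output determinants on states, scaled to positive semidefinite inputs -/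
theorem det_lower {L : Matrix (Fin m) (Fin m) ℂ →ₗ[ℂ] Matrix (Fin 2) (Fin 2) ℂ} (hL : IsChannel L)
    {D : ℝ} (hD : ∀ τ : Matrix (Fin m) (Fin m) ℂ, IsState τ → D ≤ ((L τ).det).re)
    {X : Matrix (Fin m) (Fin m) ℂ} (hX : X.PosSemidef) :
    D * (QA.rtr X) ^ 2 ≤ ((L X).det).re := by
  have htr : 0 ≤ X.trace := hX.trace_nonneg
  rw [Complex.le_def] at htr
  have h1 : X.trace = ((QA.rtr X : ℝ) : ℂ) := by
    apply Complex.ext
    · rfl
    · simpa using htr.2.symm
  have h0 : 0 ≤ QA.rtr X := by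
    have h2 := htr.1
    rw [Complex.zero_re] at h2
    exact h2
  rcases h0.lt_or_eq with hp | hp
  · set p := QA.rtr X with hpdef
    have hpc : (p : ℂ) ≠ 0 := by exact_mod_cast hp.ne'
    set τ : Matrix (Fin m) (Fin m) ℂ := ((p : ℂ)⁻¹) • X with hτ
    have hτ1 : τ.trace = 1 := by
      rw [hτ, Matrix.trace_smul, h1, smul_eq_mul, inv_mul_cancel₀ hpc]
    have hcn : (0 : ℂ) ≤ (p : ℂ)⁻¹ := by
      rw [← Complex.ofReal_inv]
      exact_mod_cast (inv_nonneg.mpr hp.le)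
    have hτ2 : τ.PosSemidef := hX.smul hcn
    have hX2 : X = (p : ℂ) • τ := by
      rw [hτ, smul_smul, mul_inv_cancel₀ hpc, one_smul]
    have h3 := hD τ ⟨hτ2, hτ1⟩
    have h4 : (L X).det = ((p ^ 2 : ℝ) : ℂ) * (L τ).det := by
      rw [hX2, map_smul, Matrix.det_smul]
      simp
    rw [h4, Complex.re_ofReal_mul]
    nlinarith [sq_nonneg p]
  · rw [← hp]
    have h3 : 0 ≤ (L X).det := (cp_psd hL.1 hX).det_nonneg
    rw [Complex.le_def] at h3
    simpa using h3.1

end minimum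

section main

variable {m : ℕ}

theorem mapRight_eq_outR {L : Matrix (Fin 2) (Fin 2) ℂ →ₗ[ℂ] Matrix (Fin 2) (Fin 2) ℂ} {n : ℕ}
    {M : Fin n → Matrix (Fin 2) (Fin 2) ℂ} (h : ∀ X, L X = QA.out M X)
    (ω : Matrix (Fin 2 × Fin 2) (Fin 2 × Fin 2) ℂ) : mapRight L ω = QA.outR M ω := by
  have h1 : ∀ A B : Matrix (Fin 2) (Fin 2) ℂ, QA.outR M (A ⊗ₖ B) = A ⊗ₖ L B := by
    intro A B
    rw [h]
    unfold QA.outR QA.out
    have h2 : ∀ j, Matrix.kronecker (1 : Matrix (Fin 2) (Fin 2) ℂ) (M j) * (A ⊗ₖ B) *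
        (Matrix.kronecker (1 : Matrix (Fin 2) (Fin 2) ℂ) (M j))ᴴ = A ⊗ₖ (M j * B * (M j)ᴴ) := by
      intro j
      change ((1 : Matrix (Fin 2) (Fin 2) ℂ) ⊗ₖ (M j)) * (A ⊗ₖ B) *
        ((1 : Matrix (Fin 2) (Fin 2) ℂ) ⊗ₖ (M j))ᴴ = _
      rw [conjTranspose_kronecker, ← mul_kronecker_mul, ← mul_kronecker_mul, conjTranspose_one,
        one_mul, mul_one]
    rw [Finset.sum_congr rfl fun j _ => h2 j]
    ext p q
    simp [Matrix.sum_apply, Finset.mul_sum]
  set R : Matrix (Fin 2 × Fin 2) (Fin 2 × Fin 2) ℂ →ₗ[ℂ] Matrix (Fin 2 × Fin 2) (Fin 2 × Fin 2) ℂ :=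
    { toFun := fun X => QA.outR M X
      map_add' := fun X Y => by
        simp only [QA.outR, Matrix.mul_add, Matrix.add_mul, Finset.sum_add_distrib]
      map_smul' := fun c X => by
        simp only [QA.outR, Matrix.mul_smul, Matrix.smul_mul, Finset.smul_sum,
          RingHom.id_apply] } with hR
  have h3 : mapRight (γ := Fin 2) L = R := by
    apply tens_unique
    intro A B
    rw [mapRight_kronecker]
    exact (h1 A B).symm
  rw [h3]
  rfl

/-- The lower bound. -/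
theorem lower {L₁ : Matrix (Fin m) (Fin m) ℂ →ₗ[ℂ] Matrix (Fin 2) (Fin 2) ℂ}
    {L₂ : Matrix (Fin 2) (Fin 2) ℂ →ₗ[ℂ] Matrix (Fin 2) (Fin 2) ℂ}
    (h₁ : IsChannel L₁) (h₂ : IsChannel L₂)
    {σ : Matrix (Fin m) (Fin m) ℂ} (hσ : IsState σ)
    (hσm : ∀ τ : Matrix (Fin m) (Fin m) ℂ, IsState τ → ((L₁ σ).det).re ≤ ((L₁ τ).det).re)
    {σ' : Matrix (Fin 2) (Fin 2) ℂ} (hσ' : IsState σ')
    (hσm' : ∀ τ : Matrix (Fin 2) (Fin 2) ℂ, IsState τ → ((L₂ σ').det).re ≤ ((L₂ τ).det).re)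
    {ρ : Matrix (Fin m × Fin 2) (Fin m × Fin 2) ℂ} (hρ : IsState ρ) :
    entropy (L₁ σ) + entropy (L₂ σ') ≤ entropy (tens L₁ L₂ ρ) := by
  obtain ⟨n, M, hM⟩ := exists_kraus h₂.1
  have hM1 : ∑ j, (M j)ᴴ * M j = 1 := kraus_tp fun X => by rw [← hM X, h₂.2 X]
  have e : tens L₁ L₂ ρ = QA.outR M (mapLeft L₁ ρ) := mapRight_eq_outR hM _
  have hs := channel_state (tens_channel h₁ h₂) hρ
  have s₁ := channel_state h₁ hσ
  have s₂ := channel_state h₂ hσ'
  rw [entropy_two s₁, entropy_two s₂, entropy_eq_ent hs.1.1, e, add_comm]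
  have hblk : ∀ j : Fin 2, QA.blk (mapLeft L₁ ρ) j = L₁ (Matrix.of fun a b => ρ (a, j) (b, j)) :=
    fun j => rfl
  have hpsd : ∀ j : Fin 2, (Matrix.of fun a b => ρ (a, j) (b, j)).PosSemidef :=
    fun j => hρ.1.submatrix (fun a : Fin m => (a, j))
  have htr : ∀ j : Fin 2, QA.rtr (QA.blk (mapLeft L₁ ρ) j) =
      QA.rtr (Matrix.of fun a b => ρ (a, j) (b, j)) := by
    intro j
    rw [hblk, QA.rtr, QA.rtr, h₁.2]
  refine QA.main_ineq M hM1 (mapLeft_psd h₁.1 hρ.1) (QA.four_det_le s₂.1).1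
    (QA.four_det_le s₁.1).1 ?_ ?_ ?_
  · intro τ hτ hτ1
    rw [← hM]
    exact hσm' τ ⟨hτ, hτ1⟩
  · have h5 : ∑ j : Fin 2, QA.rtr (QA.blk (mapLeft L₁ ρ) j) = (mapLeft L₁ ρ).trace.re := by
      unfold QA.rtr
      rw [← Complex.re_sum, QA.blk_trace]
    rw [h5, mapLeft_trace h₁.2, hρ.2, Complex.one_re]
  · intro j
    rw [htr, hblk]
    exact det_lower h₁ hσm (hpsd j)

theorem entropy_le_of_det_le {X Y : Matrix (Fin 2) (Fin 2) ℂ} (hX : IsState X) (hY : IsState Y)
    (h : (X.det).re ≤ (Y.det).re) : entropy X ≤ entropy Y := by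
  rw [entropy_two hX, entropy_two hY]
  refine QA.hh_mono (QA.four_det_le hX.1).1 h ?_
  have h1 := (QA.four_det_le hY.1).2
  rwa [QA.rtr, hY.2, Complex.one_re, one_pow] at h1

theorem kronecker_state {α β : Type} [Fintype α] [Fintype β] [DecidableEq α] [DecidableEq β]
    {X : Matrix α α ℂ} {Y : Matrix β β ℂ} (hX : IsState X)
    (hY : IsState Y) : IsState (X ⊗ₖ Y) := by
  refine ⟨hX.1.kronecker hY.1, ?_⟩
  rw [trace_kronecker, hX.2, hY.2, one_mul]

theorem isLeast_of_min {α β : Type} [Fintype α] [Fintype β] [DecidableEq β]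
    {L : Matrix α α ℂ →ₗ[ℂ] Matrix β β ℂ} {X : Matrix α α ℂ} (hX : IsState X)
    (h : ∀ Y, IsState Y → entropy (L X) ≤ entropy (L Y)) :
    IsLeast (outputEntropies L) (entropy (L X)) := by
  refine ⟨⟨X, hX, rfl⟩, ?_⟩
  rintro s ⟨Y, hY, rfl⟩
  exact h Y hY

end main

/-- **Additivity of the minimum output entropy.** Let `L₁ : M_m(ℂ) → M_2(ℂ)` (`m ≥ 1`) and
`L₂ : M_2(ℂ) → M_2(ℂ)` be quantum channels. There is exactly one linear map `T` with
`T (A ⊗ B) = L₁ A ⊗ L₂ B`; it is a channel, all three infima of output entropies are minima, the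
minimum for `T` is attained at a product of states that attain the minima of `L₁` and `L₂`, and
`S_min(T) = S_min(L₁) + S_min(L₂)`. -/
theorem result (m : ℕ) (hm : 0 < m)
    (L₁ : Matrix (Fin m) (Fin m) ℂ →ₗ[ℂ] Matrix (Fin 2) (Fin 2) ℂ)
    (L₂ : Matrix (Fin 2) (Fin 2) ℂ →ₗ[ℂ] Matrix (Fin 2) (Fin 2) ℂ)
    (h₁ : IsChannel L₁) (h₂ : IsChannel L₂) :
    ∃ T : Matrix (Fin m × Fin 2) (Fin m × Fin 2) ℂ →ₗ[ℂ]
        Matrix (Fin 2 × Fin 2) (Fin 2 × Fin 2) ℂ,
      (∀ A B, T (A ⊗ₖ B) = L₁ A ⊗ₖ L₂ B) ∧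
      (∀ T' : Matrix (Fin m × Fin 2) (Fin m × Fin 2) ℂ →ₗ[ℂ]
          Matrix (Fin 2 × Fin 2) (Fin 2 × Fin 2) ℂ,
        (∀ A B, T' (A ⊗ₖ B) = L₁ A ⊗ₖ L₂ B) → T' = T) ∧
      IsChannel T ∧
      IsLeast (outputEntropies L₁) (minOutputEntropy L₁) ∧
      IsLeast (outputEntropies L₂) (minOutputEntropy L₂) ∧
      IsLeast (outputEntropies T) (minOutputEntropy T) ∧
      (∃ X₁ X₂, IsState X₁ ∧ IsState X₂ ∧ entropy (L₁ X₁) = minOutputEntropy L₁ ∧
        entropy (L₂ X₂) = minOutputEntropy L₂ ∧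
        entropy (T (X₁ ⊗ₖ X₂)) = minOutputEntropy T) ∧
      minOutputEntropy T = minOutputEntropy L₁ + minOutputEntropy L₂ := by
  obtain ⟨X₁, hX₁, hd₁⟩ := exists_min_det hm L₁
  obtain ⟨X₂, hX₂, hd₂⟩ := exists_min_det (by norm_num) L₂
  have s₁ := channel_state h₁ hX₁
  have s₂ := channel_state h₂ hX₂
  have l₁ : IsLeast (outputEntropies L₁) (entropy (L₁ X₁)) :=
    isLeast_of_min hX₁ fun Y hY => entropy_le_of_det_le s₁ (channel_state h₁ hY) (hd₁ Y hY)
  have l₂ : IsLeast (outputEntropies L₂) (entropy (L₂ X₂)) :=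
    isLeast_of_min hX₂ fun Y hY => entropy_le_of_det_le s₂ (channel_state h₂ hY) (hd₂ Y hY)
  have hprod : entropy (tens L₁ L₂ (X₁ ⊗ₖ X₂)) = entropy (L₁ X₁) + entropy (L₂ X₂) := by
    rw [tens_kronecker, entropy_kronecker s₁ s₂]
  have l₃ : IsLeast (outputEntropies (tens L₁ L₂)) (entropy (tens L₁ L₂ (X₁ ⊗ₖ X₂))) :=
    isLeast_of_min (kronecker_state hX₁ hX₂) fun Y hY => by
      rw [hprod]
      exact lower h₁ h₂ hX₁ hd₁ hX₂ hd₂ hY
  have m₁ : minOutputEntropy L₁ = entropy (L₁ X₁) := l₁.csInf_eq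
  have m₂ : minOutputEntropy L₂ = entropy (L₂ X₂) := l₂.csInf_eq
  have m₃ : minOutputEntropy (tens L₁ L₂) = entropy (tens L₁ L₂ (X₁ ⊗ₖ X₂)) := l₃.csInf_eq
  refine ⟨tens L₁ L₂, tens_kronecker L₁ L₂, fun T' hT' => tens_unique fun A B => ?_,
    tens_channel h₁ h₂, ?_, ?_, ?_, ⟨X₁, X₂, hX₁, hX₂, m₁.symm, m₂.symm, m₃.symm⟩, ?_⟩
  · rw [hT', tens_kronecker]
  · rw [m₁]
    exact l₁
  · rw [m₂]
    exact l₂
  · rw [m₃]
    exact l₃
  · rw [m₁, m₂, m₃, hprod]

end Pool.Agent.Results.MP_dd87f4_mp.QubitAdditivity
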